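import Pool.Agent.Mnh583S.Spec

/-!
# The orders of the maximally nonhamiltonian graphs of girth five
-/

set_option autoImplicit false

namespace Pool.Agent.Results.MP_9b9498_co.GirthFive

/-- There is a maximally nonhamiltonian graph with `n` vertices and girth exactly `5` if and only if
`n = 10`, `n = 13` or `n ≥ 15`. -/
theorem result (n : ℕ) :
    (∃ G : SimpleGraph (Fin n), ¬ G.IsHamiltonian ∧
      (∀ u v : Fin n, u ≠ v → ¬ G.Adj u v → (G ⊔ SimpleGraph.edge u v).IsHamiltonian) ∧
      G.girth = 5) ↔ n = 10 ∨ n = 13 ∨ 15 ≤ n :=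
  Pool.Mnh583S.spectrum n

end Pool.Agent.Results.MP_9b9498_co.GirthFive
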