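import Pool.Agent.Mnh.Main

/-!
# Maximally nonhamiltonian graphs of girth exactly four
-/

set_option autoImplicit false

namespace Pool.Agent.Results.MP_9b9498_co.GirthFour

/-- For every `n ≥ 18` there is a maximally nonhamiltonian graph with `n` vertices and girth
exactly `4`. -/
theorem result (n : ℕ) (hn : 18 ≤ n) :
    ∃ G : SimpleGraph (Fin n), ¬ G.IsHamiltonian ∧
      (∀ u v : Fin n, u ≠ v → ¬ G.Adj u v → (G ⊔ SimpleGraph.edge u v).IsHamiltonian) ∧
      G.girth = 4 :=
  Pool.Mnh.main n hn

end Pool.Agent.Results.MP_9b9498_co.GirthFour
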